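import Pool.Agent.Q271.TP.E3b

set_option autoImplicit false

/-! # MP_545343_nt: the equations `(E₁)`, `(E₂)`, `(E₃)` have no solutions -/

namespace Pool.Agent.Results.MP_545343_nt.NoSolutions

/-- For integers `d, x, y, s, t, m ≥ 2` the equations `(E₁)` and `(E₂)` have no solutions (even
without the condition `x ≠ y`), and `(E₃)` has no solutions with `x ≠ y`. -/
theorem result (d x y s t m : ℕ) (hd : 2 ≤ d) (hx : 2 ≤ x) (hy : 2 ≤ y) (hs : 2 ≤ s)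
    (ht : 2 ≤ t) (hm : 2 ≤ m) :
    (((d : ℤ) ^ x + 1) ^ s + 1) ^ t - (d : ℤ) ^ y ≠ 2 ∧
    (d : ℤ) ^ y - (((d : ℤ) ^ x - 1) ^ s - 1) ^ t ≠ 2 ∧
    (x ≠ y → ((d : ℤ) ^ x + 1) ^ s - ((d : ℤ) ^ y - 1) ^ m ≠ 2) := by
  have hdx : 1 ≤ d ^ x := Nat.one_le_pow _ _ (by omega)
  have hdx4 : 4 ≤ d ^ x := (Nat.pow_le_pow_left hd 2).trans (Nat.pow_le_pow_right (by omega) hx)
  have hdy : 1 ≤ d ^ y := Nat.one_le_pow _ _ (by omega)
  have h1 : 1 ≤ (d ^ x - 1) ^ s := Nat.one_le_pow _ _ (by omega)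
  refine ⟨fun h => ?_, fun h => ?_, fun hxy h => ?_⟩
  · apply Q271.TP.e1 hd hx hy hs ht
    have : ((((d ^ x + 1) ^ s + 1) ^ t : ℕ) : ℤ) = ((d ^ y + 2 : ℕ) : ℤ) := by
      push_cast; linarith
    exact_mod_cast this
  · apply Q271.TP.e2 hd hx hy hs ht
    have : ((d ^ y : ℕ) : ℤ) = ((((d ^ x - 1) ^ s - 1) ^ t + 2 : ℕ) : ℤ) := by
      push_cast [Nat.cast_sub h1, Nat.cast_sub hdx]; linarith
    exact_mod_cast this
  · apply Q271.TP.e3 hd hx hy hs hm hxy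
    have : (((d ^ x + 1) ^ s : ℕ) : ℤ) = (((d ^ y - 1) ^ m + 2 : ℕ) : ℤ) := by
      push_cast [Nat.cast_sub hdy]; linarith
    exact_mod_cast this

end Pool.Agent.Results.MP_545343_nt.NoSolutions
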